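import Pool.Agent.R276.Pe

set_option autoImplicit false

/-!
For `2 < p < ∞` the Lipschitz-free space of `ℓ_p` does not embed isomorphically into the
`ℓ_1`-sum of the Lipschitz-free spaces of the spaces `ℓ_p^n`; in particular the two are not
isomorphic.
-/

open scoped ENNReal
open Pool.Agent.R276.FreeDef (IsFreeSpace)
open Pool.Agent.TH326.L1 (RL)

noncomputable section

namespace Pool.Agent.Results.MP_ce7f50_an.NotL1Sum

/-- The space `ℓ_p`. -/
abbrev ellp (p : ℝ≥0∞) : Type := lp (fun _ : ℕ => ℝ) p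

/-- The space `ℓ_p^n`. -/
abbrev ellpn (p : ℝ≥0∞) (n : ℕ) : Type := PiLp p (fun _ : Fin n => ℝ)

theorem co_le {p : ℝ≥0∞} [Fact (1 ≤ p)] (k : ℕ) : RL 1 (fun x : ellp p => x k) := by
  intro x y
  have hp : p ≠ 0 := by
    have h : (1 : ℝ≥0∞) ≤ p := Fact.out
    intro h0
    rw [h0] at h
    exact absurd h (by simp)
  have := lp.norm_apply_le_norm hp (x - y) k
  rw [one_mul]
  simpa using this

theorem up {p : ℝ≥0∞} [Fact (1 ≤ p)] (hp2 : 2 < p) (hp : p ≠ ∞) (θ : ℕ →₀ ℝ)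
    (hθ : ∀ j, |θ j| ≤ 1) :
    ‖θ.sum fun k c => c • (lp.single p k 1 : ellp p)‖ ≤ (θ.support.card : ℝ) ^ (1 / p.toReal) := by
  have hpr : 2 < p.toReal := by
    have := (ENNReal.toReal_lt_toReal (by simp) hp).2 hp2
    simpa using this
  have h1 : (θ.sum fun k c => c • (lp.single p k 1 : ellp p)) =
      ∑ k ∈ θ.support, (lp.single p k (θ k) : ellp p) := by
    unfold Finsupp.sum
    refine Finset.sum_congr rfl fun k _ => ?_
    change θ k • (lp.single p k 1 : ellp p) = _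
    rw [← lp.single_smul, smul_eq_mul, mul_one]
  have h2 := lp.norm_sum_single (p := p) (E := fun _ : ℕ => ℝ) (by linarith) (fun k => θ k)
    θ.support
  have h3 : ‖∑ k ∈ θ.support, (lp.single p k (θ k) : ellp p)‖ ^ p.toReal ≤ θ.support.card := by
    rw [h2]
    have h4 : ∀ k ∈ θ.support, ‖θ k‖ ^ p.toReal ≤ 1 := fun k _ =>
      Real.rpow_le_one (norm_nonneg _) (hθ k) (by linarith)
    refine (Finset.sum_le_sum h4).trans ?_
    simp
  rw [h1]
  have h5 := Real.rpow_le_rpow (Real.rpow_nonneg (norm_nonneg _) _) h3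
    (by positivity : 0 ≤ 1 / p.toReal)
  rw [← Real.rpow_mul (norm_nonneg _), mul_one_div, div_self (by linarith), Real.rpow_one] at h5
  exact h5

/-- For every `p` with `2 < p < ∞`, the free space `F(ℓ_p)` does not embed isomorphically into
the `ℓ_1`-sum of the spaces `F(ℓ_p^n)`, and in particular the two spaces are not isomorphic. -/
theorem result (p : ℝ≥0∞) [Fact (1 ≤ p)] (hp2 : 2 < p) (hp : p ≠ ∞)
    {F : Type} [NormedAddCommGroup F] [NormedSpace ℝ F] (δ : ellp p → F)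
    (hδ : IsFreeSpace 0 δ)
    {G : ℕ → Type} [∀ n, NormedAddCommGroup (G n)] [∀ n, NormedSpace ℝ (G n)]
    (δn : ∀ n, ellpn p n → G n) (hδn : ∀ n, IsFreeSpace 0 (δn n)) :
    IsEmpty (F ≃L[ℝ] lp G 1) ∧
      ¬ ∃ (T : F →L[ℝ] lp G 1) (c : ℝ), 0 < c ∧ ∀ v, c * ‖v‖ ≤ ‖T v‖ := by
  have hpr : 2 < p.toReal := by
    have := (ENNReal.toReal_lt_toReal (by simp) hp).2 hp2
    simpa using this
  have hp0 : 0 < p := lt_trans (by simp) hp2
  have key : ¬ ∃ (T : F →L[ℝ] lp G 1) (c : ℝ), 0 < c ∧ ∀ v, c * ‖v‖ ≤ ‖T v‖ := by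
    rintro ⟨T, c, hc, hT⟩
    refine Pool.Agent.R276.P.no_embedding (E := ellp p) hδ (G := fun n : ℕ => ellpn p n)
      (H := G) hδn (e := fun k => lp.single p k 1) (fun k => ?_) (α := 1 / p.toReal) (up hp2 hp)
      (by positivity) ?_ (c := fun k x => x k) co_le ?_ ?_ T hc hT
    · rw [lp.norm_single hp0]; simp
    · rw [div_lt_div_iff₀ (by linarith) (by norm_num)]
      linarith
    · intro k i x s hik
      have : (x + s • (lp.single p i 1 : ellp p)) k = x k + s * (lp.single p i (1:ℝ) : ellp p) k := rfl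
      rw [this, lp.single_apply_ne p i _ (by omega), mul_zero, add_zero]
    · intro k x s
      have : (x + s • (lp.single p k 1 : ellp p)) k = x k + s * (lp.single p k (1:ℝ) : ellp p) k := rfl
      rw [this, lp.single_apply_self, mul_one]
  refine ⟨⟨fun Φ => ?_⟩, key⟩
  refine key ⟨(Φ : F →L[ℝ] lp G 1), (‖(Φ.symm : lp G 1 →L[ℝ] F)‖ + 1)⁻¹,
    by positivity, fun v => ?_⟩
  have h1 := (Φ.symm : lp G 1 →L[ℝ] F).le_opNorm (Φ v)
  have h2 : (Φ.symm : lp G 1 →L[ℝ] F) (Φ v) = v := Φ.symm_apply_apply v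
  rw [h2] at h1
  rw [inv_mul_le_iff₀ (by positivity)]
  refine h1.trans ?_
  exact mul_le_mul_of_nonneg_right (by linarith) (norm_nonneg _)

end Pool.Agent.Results.MP_ce7f50_an.NotL1Sum
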